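import Pool.Agent.P.MP_657a03_nt.AB.Fin

/-!
The normalised regulator over an abelian field: its valuation is at most `p ^ (φ f - c) - n`.
-/

set_option autoImplicit false

open scoped Classical
open Pool.Agent.P.MP_657a03_nt

theorem Pool.Agent.Results.MP_657a03_nt.AbelianBound.result :
    ∀ (K : Type) [Field K] [NumberField K] [IsGalois ℚ K],
    (∀ σ τ : K ≃ₐ[ℚ] K, σ * τ = τ * σ) → ∃ c : ℝ, 0 < c ∧ ∀ η : K, η ≠ 0 →
    (∀ a : (K ≃ₐ[ℚ] K) → ℤ,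
        IsOfFinOrder (∏ σ : K ≃ₐ[ℚ] K, (σ η) ^ (a σ)) → a = 0) →
    ∃ P₀ : ℕ, ∀ p : ℕ, P₀ < p → ∀ [Fact p.Prime],
      ∀ (L : Type) [NormedField L] [CompleteSpace L] [IsUltrametricDist L]
        [NormedAlgebra ℚ_[p] L] (ι : K →+* L) (f : ℕ), 0 < f →
        (∀ x : NumberField.RingOfIntegers K, ‖ι x ^ p ^ f - ι x‖ < 1) →
        (p : ℝ) ^ ((Module.finrank ℚ K : ℝ) - (p : ℝ) ^ ((Nat.totient f : ℝ) - c)) ≤
          ‖((p : L)⁻¹) ^ (Module.finrank ℚ K) *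
            Matrix.det (Matrix.of (fun (σ τ : K ≃ₐ[ℚ] K) =>
              (((p ^ Module.finrank ℚ K - 1 : ℕ) : L))⁻¹ *
                ∑' k : ℕ, (-1 : L) ^ k *
                  (ι ((σ * τ) η) ^ (p ^ Module.finrank ℚ K - 1) - 1) ^ (k + 1) /
                    ((k : L) + 1)))‖ :=
  AB.glue AB.transAll AB.allAB AB.t_DET
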