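import Pool.Agent.P.MP_657a03_nt.CW.All
import Pool.Agent.P.MP_657a03_nt.CW.Reg

/-!
The Carlitz model: the normalised `P`-adic regulator is a unit outside `q ^ ((1 - δ) d)` of the
primes of degree `d`, for every finite Galois extension of the rational function field.
-/

set_option autoImplicit false

open Pool.Agent.P.MP_657a03_nt.CW

theorem Pool.Agent.Results.MP_657a03_nt.CarlitzAlmostAll.result :
    ∀ n : ℕ, ∃ δ : ℝ, 0 < δ ∧ ∀ (F K : Type) [Field F] [Fintype F] [Field K] [Algebra F K]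
      [Algebra (RatFunc F) K] [IsScalarTower F (RatFunc F) K] [FiniteDimensional (RatFunc F) K]
      [IsGalois (RatFunc F) K], Module.finrank (RatFunc F) K = n →
      ∀ θ η : K, θ = algebraMap (RatFunc F) K RatFunc.X →
      (∀ a : (K ≃ₐ[RatFunc F] K) → Polynomial F, ∑ σ, carlitz θ (a σ) (σ η) = 0 → a = 0) →
      ∃ d₀ : ℕ, ∀ d : ℕ, d₀ ≤ d →
        (Set.ncard {P : Polynomial F | P.Monic ∧ Irreducible P ∧ P.natDegree = d ∧
          NonUnit θ (fun σ : K ≃ₐ[RatFunc F] K => σ η) P} : ℝ) ≤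
          (Fintype.card F : ℝ) ^ ((1 - δ) * d) := by
  intro n
  obtain ⟨δ, hδ, h⟩ := t_MAIN n
  refine ⟨δ, hδ, ?_⟩
  intro F K _ _ _ _ _ _ _ _ hn θ η hθ hind
  have hcard : Fintype.card (K ≃ₐ[RatFunc F] K) = n := by
    rw [← hn, ← IsGalois.card_aut_eq_finrank, Nat.card_eq_fintype_card]
  simp only [NonUnit, reg, hcard]
  exact h F K hn θ η hθ hind
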