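import Pool.Agent.P.MP_657a03_nt.G3.All

/-!
For every large prime `p` there is a field with group `(ℤ / 2) ^ 3` whose class number is prime
to `p`, whose ray class groups modulo powers of `p` have `p`-rank at most `r₂ + 1`, and whose real
subfield has a unit `u` with the regulator of `(1 + p) u` a `p`-adic unit.
-/

set_option autoImplicit false

open NumberField Pool.Agent.P.MP_657a03_nt.G5

theorem Pool.Agent.Results.MP_657a03_nt.GreenbergThree.result :
    ∃ P₀ : ℕ, ∀ p : ℕ, p.Prime → P₀ < p →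
      ∃ (K : Type) (_ : Field K) (_ : NumberField K), IsGalois ℚ K ∧ IsTotallyComplex K ∧
        Nonempty ((K ≃ₐ[ℚ] K) ≃* Multiplicative (Fin 3 → ZMod 2)) ∧ ¬ p ∣ classNumber K ∧
        PRat K p ∧ ∃ (F : Type) (_ : Field F) (_ : NumberField F) (_ : F →+* K) (u : (𝓞 F)ˣ),
          IsGalois ℚ F ∧ IsTotallyReal F ∧ Module.finrank ℚ F = 4 ∧
          Indep F ((1 + p) * u) ∧ RegUnit F ((1 + p) * u) p :=
  Pool.Agent.P.MP_657a03_nt.G3.t_MAIN
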